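import Mathlib

/-!
# Integers `n` for which every `n - 2 ^ k` is squarefree

There are infinitely many `n` such that `n - 2 ^ k` is squarefree for all `k ≥ 1` with `2 ^ k < n`
(MP_fcd74d_nt, Q1), and for every `ε > 0` and all large `N` at least `N ^ (1 - ε)` of the integers
`n ≤ N` have this property.

Proof. Let `K = log₂ N`, let `y` be a small multiple of `K` and let `P` be the product of the odd
primes up to `y`, which is at most `N ^ (ε / 2)`. The odd multiples `n ≤ N` of `P` are such that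
`n - 2 ^ k` has no prime factor `≤ y`. For a prime `p > y` and `k ≤ K` the number of the `n = P (2 t + 1)`
with `t < T` and `p ^ 2 ∣ n - 2 ^ k` is at most `T / p ^ 2 + 1`, and the sum over `k` and `p ≤ √N` is at
most `K T ∑_{p > y} 1 / p ^ 2 + K √N`. As the primes have density zero, the sum over the primes `p > y`
is `o(1 / y)`.
-/

set_option autoImplicit false

open Finset Filter

namespace Pool.Agent.Results.MP_fcd74d_nt.SquarefreeDifferences

/-- `n` is good: `n ≥ 3` and `n - 2 ^ k` is squarefree for all `k ≥ 1` with `2 ^ k < n`. -/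
def Good (n : ℕ) : Prop := 3 ≤ n ∧ ∀ k : ℕ, 1 ≤ k → 2 ^ k < n → Squarefree (n - 2 ^ k)

/-- the primes `p` with `y < p ≤ z` -/
def primesIn (y z : ℕ) : Finset ℕ := (Finset.Ioc y z).filter Nat.Prime

/-- the primes have density zero -/
lemma pi_small {δ : ℝ} (hδ : 0 < δ) : ∃ x₀ : ℕ, ∀ x : ℕ, x₀ ≤ x → (Nat.primeCounting x : ℝ) ≤ δ * x := by
  have h1 := (Chebyshev.eventually_primeCounting_le (ε := 1) one_pos)
  have h2 : ∀ᶠ x : ℝ in atTop, (Real.log 4 + 1) / δ ≤ Real.log x :=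
    Real.tendsto_log_atTop.eventually_ge_atTop _
  have h3 : ∀ᶠ x : ℝ in atTop, (Nat.primeCounting ⌊x⌋₊ : ℝ) ≤ δ * x := by
    filter_upwards [h1, h2, eventually_gt_atTop 1] with x hx1 hx2 hx3
    refine hx1.trans ?_
    have hl : 0 < Real.log x := Real.log_pos hx3
    rw [div_le_iff₀ hl]
    rw [div_le_iff₀ hδ] at hx2
    have hx0 : (0 : ℝ) ≤ x := by linarith
    nlinarith
  obtain ⟨x₀, hx₀⟩ := Filter.eventually_atTop.1 h3
  refine ⟨⌈x₀⌉₊, fun x hx => ?_⟩
  have := hx₀ x ((Nat.le_ceil x₀).trans (by exact_mod_cast hx))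
  simpa using this

lemma card_primesIn_le (y z : ℕ) : (primesIn y z).card ≤ Nat.primeCounting z := by
  unfold primesIn
  rw [Nat.primeCounting, Nat.primeCounting', Nat.count_eq_card_filter_range]
  apply Finset.card_le_card
  intro p hp
  simp only [mem_filter, mem_Ioc, mem_range] at hp ⊢
  exact ⟨by omega, hp.2⟩

lemma primesIn_succ (y z : ℕ) (h : y ≤ z) :
    primesIn y (z + 1) = if (z + 1).Prime then insert (z + 1) (primesIn y z) else primesIn y z := by
  ext p
  unfold primesIn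
  split_ifs with hp
  · simp only [mem_filter, mem_Ioc, mem_insert]
    constructor
    · rintro ⟨⟨h1, h2⟩, h3⟩
      rcases Nat.lt_or_ge z p with h4 | h4
      · left; omega
      · right; exact ⟨⟨h1, h4⟩, h3⟩
    · rintro (h1 | ⟨⟨h1, h2⟩, h3⟩)
      · subst h1; exact ⟨⟨by omega, le_rfl⟩, hp⟩
      · exact ⟨⟨h1, by omega⟩, h3⟩
  · simp only [mem_filter, mem_Ioc]
    constructor
    · rintro ⟨⟨h1, h2⟩, h3⟩
      refine ⟨⟨h1, ?_⟩, h3⟩
      rcases Nat.lt_or_ge z p with h4 | h4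
      · have : p = z + 1 := by omega
        subst this; exact absurd h3 hp
      · exact h4
    · rintro ⟨⟨h1, h2⟩, h3⟩
      exact ⟨⟨h1, by omega⟩, h3⟩

/-- partial summation -/
lemma sum_le_aux {δ : ℝ} (y : ℕ) (hy : 1 ≤ y)
    (hpi : ∀ x : ℕ, y ≤ x → (Nat.primeCounting x : ℝ) ≤ δ * x) (z : ℕ) (hz : y ≤ z) :
    ∑ p ∈ primesIn y z, 1 / (p : ℝ) ^ 2 - (primesIn y z).card / ((z : ℝ) + 1) ^ 2 ≤
      2 * δ * (1 / (y : ℝ) - 1 / (z : ℝ)) := by
  induction z, hz using Nat.le_induction with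
  | base =>
    have : primesIn y y = ∅ := by
      unfold primesIn
      simp
    rw [this]
    simp
  | succ z hz ih =>
    have hz1 : (1 : ℝ) ≤ z := by exact_mod_cast hy.trans hz
    have hz0 : (0 : ℝ) < z := by linarith
    have hcard : ((primesIn y (z + 1)).card : ℝ) ≤ δ * (z + 1) := by
      have h1 : ((primesIn y (z + 1)).card : ℝ) ≤ (Nat.primeCounting (z + 1) : ℝ) := by
        exact_mod_cast card_primesIn_le y (z + 1)
      refine h1.trans ?_
      have := hpi (z + 1) (by omega)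
      push_cast at this
      exact this
    have hstep : ∑ p ∈ primesIn y (z + 1), 1 / (p : ℝ) ^ 2 -
        (primesIn y (z + 1)).card / ((z : ℝ) + 1) ^ 2 =
        ∑ p ∈ primesIn y z, 1 / (p : ℝ) ^ 2 - (primesIn y z).card / ((z : ℝ) + 1) ^ 2 := by
      rw [primesIn_succ y z hz]
      split_ifs with hp
      · have hn : (z + 1) ∉ primesIn y z := by
          unfold primesIn
          simp
        rw [Finset.sum_insert hn, Finset.card_insert_of_notMem hn]
        push_cast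
        ring
      · rfl
    have hδ0 : 0 ≤ δ := by
      have h1 := hpi z hz
      have h2 : (0 : ℝ) ≤ (Nat.primeCounting z : ℝ) := Nat.cast_nonneg _
      by_contra hcon
      push Not at hcon
      nlinarith
    have key : (primesIn y (z + 1)).card * (1 / ((z : ℝ) + 1) ^ 2 - 1 / ((z : ℝ) + 1 + 1) ^ 2) ≤
        2 * δ * (1 / (z : ℝ) - 1 / ((z : ℝ) + 1)) := by
      have h1 : 0 ≤ 1 / ((z : ℝ) + 1) ^ 2 - 1 / ((z : ℝ) + 1 + 1) ^ 2 := by
        rw [sub_nonneg]
        apply one_div_le_one_div_of_le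
        · positivity
        · gcongr
          linarith
      have h2 : (1 / ((z : ℝ) + 1) ^ 2 - 1 / ((z : ℝ) + 1 + 1) ^ 2) * (z + 1) ≤
          2 * (1 / (z : ℝ) - 1 / ((z : ℝ) + 1)) := by
        rw [div_sub_div _ _ (by positivity) (by positivity), div_mul_eq_mul_div,
          div_sub_div _ _ (by positivity) (by positivity), mul_div_assoc',
          div_le_div_iff₀ (by positivity) (by positivity)]
        nlinarith [mul_pos hz0 hz0, mul_pos (mul_pos hz0 hz0) hz0,
          mul_pos (mul_pos (mul_pos hz0 hz0) hz0) hz0,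
          mul_pos (mul_pos (mul_pos (mul_pos hz0 hz0) hz0) hz0) hz0,
          mul_pos (mul_pos (mul_pos (mul_pos (mul_pos hz0 hz0) hz0) hz0) hz0) hz0]
      calc _ ≤ (δ * (z + 1)) * (1 / ((z : ℝ) + 1) ^ 2 - 1 / ((z : ℝ) + 1 + 1) ^ 2) :=
            mul_le_mul_of_nonneg_right hcard h1
        _ = δ * ((1 / ((z : ℝ) + 1) ^ 2 - 1 / ((z : ℝ) + 1 + 1) ^ 2) * (z + 1)) := by ring
        _ ≤ δ * (2 * (1 / (z : ℝ) - 1 / ((z : ℝ) + 1))) := mul_le_mul_of_nonneg_left h2 hδ0
        _ = _ := by ring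
    push_cast
    have e1 : ∑ p ∈ primesIn y (z + 1), 1 / (p : ℝ) ^ 2 -
        (primesIn y (z + 1)).card / ((z : ℝ) + 1 + 1) ^ 2 =
        (∑ p ∈ primesIn y (z + 1), 1 / (p : ℝ) ^ 2 -
          (primesIn y (z + 1)).card / ((z : ℝ) + 1) ^ 2) +
        (primesIn y (z + 1)).card * (1 / ((z : ℝ) + 1) ^ 2 - 1 / ((z : ℝ) + 1 + 1) ^ 2) := by
      ring
    rw [e1, hstep]
    linarith

lemma sum_primes_le {δ : ℝ} (hδ : 0 < δ) : ∃ y₀ : ℕ, 1 ≤ y₀ ∧ ∀ y : ℕ, y₀ ≤ y → ∀ z : ℕ,
    ∑ p ∈ primesIn y z, 1 / (p : ℝ) ^ 2 ≤ δ / y := by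
  obtain ⟨x₀, hx₀⟩ := pi_small (half_pos hδ)
  refine ⟨max x₀ 1, le_max_right _ _, fun y hy z => ?_⟩
  have hy1 : 1 ≤ y := (le_max_right _ _).trans hy
  have hyr : (1 : ℝ) ≤ y := by exact_mod_cast hy1
  rcases Nat.lt_or_ge z y with hzy | hzy
  · have : primesIn y z = ∅ := by
      unfold primesIn
      rw [Finset.Ioc_eq_empty (by omega)]
      simp
    rw [this]
    simp only [sum_empty]
    positivity
  · have hpi : ∀ x : ℕ, y ≤ x → (Nat.primeCounting x : ℝ) ≤ δ / 2 * x := fun x hx =>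
      hx₀ x ((le_max_left _ _).trans (hy.trans hx))
    have h1 := sum_le_aux y hy1 hpi z hzy
    have h2 : ((primesIn y z).card : ℝ) ≤ δ / 2 * z :=
      le_trans (by exact_mod_cast card_primesIn_le y z) (hpi z hzy)
    have hz0 : (0 : ℝ) < z := by
      have : (y : ℝ) ≤ z := by exact_mod_cast hzy
      linarith
    have h3 : ((primesIn y z).card : ℝ) / ((z : ℝ) + 1) ^ 2 ≤ δ * (1 / z) := by
      rw [div_le_iff₀ (by positivity)]
      refine h2.trans ?_
      have : δ * (1 / (z : ℝ)) * ((z : ℝ) + 1) ^ 2 = δ * ((z + 1) ^ 2 / z) := by ring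
      rw [this]
      have h4 : (z : ℝ) ≤ (z + 1) ^ 2 / z := by
        rw [le_div_iff₀ hz0]
        nlinarith
      nlinarith
    have h5 : δ / y = 2 * (δ / 2) * (1 / (y : ℝ) - 1 / (z : ℝ)) + δ * (1 / z) := by ring
    rw [h5]
    linarith

/-- the number of the `t < T` in a residue class modulo `q` -/
lemma card_class_le (T q : ℕ) (S : Finset ℕ) (hS : ∀ t ∈ S, t < T)
    (h : ∀ t ∈ S, ∀ t' ∈ S, t % q = t' % q) : S.card ≤ T / q + 1 := by
  have h1 : Set.InjOn (fun t => t / q) (S : Set ℕ) := by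
    intro a ha b hb hab
    have h2 := h a ha b hb
    have h3 := Nat.div_add_mod a q
    have h4 := Nat.div_add_mod b q
    simp only at hab
    rw [← h3, ← h4, hab, h2]
  rw [← Finset.card_image_of_injOn h1]
  have h2 : S.image (fun t => t / q) ⊆ Finset.range (T / q + 1) := by
    intro x hx
    obtain ⟨t, ht, rfl⟩ := Finset.mem_image.1 hx
    rw [Finset.mem_range]
    have := Nat.div_le_div_right (c := q) (hS t ht).le
    omega
  have := Finset.card_le_card h2
  simpa using this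

/-- The main count: the number of `t < T` with `P (2 t + 1)` good. -/
lemma main_count (y N T P : ℕ) (hy : 3 ≤ y) (hP : 2 * P = primorial y) (hT : 2 * P * T ≤ N) :
    (T : ℝ) - Nat.log 2 N * ∑ p ∈ primesIn y (Nat.sqrt N), ((T : ℝ) / (p : ℝ) ^ 2 + 1) ≤
      ({n : ℕ | n ≤ N ∧ Good n}.ncard : ℝ) := by
  classical
  have hncard : {n : ℕ | n ≤ N ∧ Good n}.ncard = ((Finset.range (N + 1)).filter Good).card := by
    rw [← Set.ncard_coe_finset]
    congr 1
    ext n
    simp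
  rw [hncard]
  have hP0 : 0 < P := by
    have := primorial_pos y
    omega
  -- odd primes up to `y` divide `P`, and `P` is odd
  have hodd : Odd P := by
    rw [← Nat.not_even_iff_odd]
    intro he
    obtain ⟨c, hc⟩ := he
    have h4 : 2 * 2 ∣ primorial y := ⟨c, by rw [← hP, hc]; ring⟩
    have := (squarefree_primorial y) 2 h4
    simp at this
  have hdvd : ∀ p : ℕ, p.Prime → p ≠ 2 → p ≤ y → p ∣ P := by
    intro p hp hp2 hpy
    have h1 : p ∣ 2 * P := by
      rw [hP]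
      exact hp.dvd_primorial_iff.2 hpy
    rcases (hp.dvd_mul).1 h1 with h | h
    · exact absurd ((Nat.prime_dvd_prime_iff_eq hp Nat.prime_two).1 h) hp2
    · exact h
  have hcop : ∀ p : ℕ, p.Prime → y < p → Nat.Coprime (p ^ 2) (2 * P) := by
    intro p hp hpy
    apply Nat.Coprime.pow_left
    rw [hp.coprime_iff_not_dvd, hP]
    intro h
    have := hp.dvd_primorial_iff.1 h
    omega
  have hP3 : 3 ≤ P := by
    have := Nat.le_of_dvd hP0 (hdvd 3 Nat.prime_three (by norm_num) hy)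
    exact this
  set f : ℕ → ℕ := fun t => P * (2 * t + 1) with hf
  have hfle : ∀ t < T, f t ≤ N := by
    intro t ht
    have : P * (2 * t + 1) ≤ 2 * P * T := by nlinarith
    exact this.trans hT
  -- bad sets
  let bad : ℕ → ℕ → Finset ℕ := fun k p =>
    (Finset.range T).filter (fun t => 2 ^ k < f t ∧ p ^ 2 ∣ f t - 2 ^ k)
  have hbad : ∀ k p : ℕ, p.Prime → y < p → (bad k p).card ≤ T / p ^ 2 + 1 := by
    intro k p hp hpy
    apply card_class_le T (p ^ 2)
    · intro t ht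
      exact Finset.mem_range.1 (Finset.mem_filter.1 ht).1
    · intro t ht t' ht'
      obtain ⟨-, h1, h2⟩ := Finset.mem_filter.1 ht
      obtain ⟨-, h1', h2'⟩ := Finset.mem_filter.1 ht'
      have h3 : f t ≡ 2 ^ k [MOD p ^ 2] := ((Nat.modEq_iff_dvd' h1.le).2 h2).symm
      have h4 : f t' ≡ 2 ^ k [MOD p ^ 2] := ((Nat.modEq_iff_dvd' h1'.le).2 h2').symm
      have h5 : P * (2 * t + 1) ≡ P * (2 * t' + 1) [MOD p ^ 2] := h3.trans h4.symm
      have h6 : 2 * P * t + P ≡ 2 * P * t' + P [MOD p ^ 2] := by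
        have e1 : P * (2 * t + 1) = 2 * P * t + P := by ring
        have e2 : P * (2 * t' + 1) = 2 * P * t' + P := by ring
        rwa [e1, e2] at h5
      have h7 : 2 * P * t ≡ 2 * P * t' [MOD p ^ 2] := Nat.ModEq.add_right_cancel' P h6
      exact Nat.ModEq.cancel_left_of_coprime (hcop p hp hpy) h7
  -- the complement of the bad sets maps to good numbers
  let B : Finset ℕ := (Finset.Icc 1 (Nat.log 2 N)).biUnion fun k =>
    (primesIn y (Nat.sqrt N)).biUnion fun p => bad k p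
  have hgood : ∀ t ∈ (Finset.range T) \ B, f t ∈ (Finset.range (N + 1)).filter Good := by
    intro t ht
    obtain ⟨ht1, ht2⟩ := Finset.mem_sdiff.1 ht
    rw [Finset.mem_range] at ht1
    rw [Finset.mem_filter, Finset.mem_range]
    refine ⟨Nat.lt_succ_of_le (hfle t ht1), ?_⟩
    refine ⟨?_, ?_⟩
    · show 3 ≤ P * (2 * t + 1)
      nlinarith
    · intro k hk hkn
      rw [Nat.squarefree_iff_prime_squarefree]
      intro p hp hdiv
      have hdiv2 : p ^ 2 ∣ f t - 2 ^ k := by rw [pow_two]; exact hdiv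
      have hpd : p ∣ f t - 2 ^ k := (dvd_pow_self p two_ne_zero).trans hdiv2
      have hftodd : Odd (f t) := hodd.mul ⟨t, rfl⟩
      have hp2 : p ≠ 2 := by
        rintro rfl
        have h1 : 2 ∣ 2 ^ k := dvd_pow_self 2 (by omega)
        have h2 : 2 ∣ f t := by
          have := (Nat.dvd_add hpd h1)
          rwa [Nat.sub_add_cancel hkn.le] at this
        rw [← Nat.not_even_iff_odd] at hftodd
        exact hftodd (even_iff_two_dvd.2 h2)
      have hyp : y < p := by
        by_contra hcon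
        push Not at hcon
        have h1 : p ∣ P := hdvd p hp hp2 hcon
        have h2 : p ∣ f t := h1.mul_right _
        have h3 : p ∣ 2 ^ k := by
          have h4 := (Nat.dvd_sub h2 hpd)
          rwa [Nat.sub_sub_self hkn.le] at h4
        have h5 := hp.dvd_of_dvd_pow h3
        exact hp2 ((Nat.prime_dvd_prime_iff_eq hp Nat.prime_two).1 h5)
      have hpos : 0 < f t - 2 ^ k := Nat.sub_pos_of_lt hkn
      have hple : p ≤ Nat.sqrt N := by
        rw [Nat.le_sqrt']
        have h1 := Nat.le_of_dvd hpos hdiv2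
        have h2 : f t ≤ N := hfle t ht1
        exact h1.trans ((Nat.sub_le _ _).trans h2)
      have hklog : k ≤ Nat.log 2 N := by
        apply Nat.le_log_of_pow_le (by norm_num)
        exact hkn.le.trans (hfle t ht1)
      apply ht2
      simp only [B, Finset.mem_biUnion]
      refine ⟨k, Finset.mem_Icc.2 ⟨hk, hklog⟩, p, ?_, ?_⟩
      · unfold primesIn
        exact Finset.mem_filter.2 ⟨Finset.mem_Ioc.2 ⟨hyp, hple⟩, hp⟩
      · exact Finset.mem_filter.2 ⟨Finset.mem_range.2 ht1, hkn, hdiv2⟩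
  have hinj : Set.InjOn f ((Finset.range T) \ B : Finset ℕ) := by
    intro a _ b _ hab
    have : P * (2 * a + 1) = P * (2 * b + 1) := hab
    have := Nat.eq_of_mul_eq_mul_left hP0 this
    omega
  have h1 : ((Finset.range T) \ B).card ≤ ((Finset.range (N + 1)).filter Good).card := by
    rw [← Finset.card_image_of_injOn hinj]
    apply Finset.card_le_card
    intro x hx
    obtain ⟨t, ht, rfl⟩ := Finset.mem_image.1 hx
    exact hgood t ht
  have h2 : T ≤ ((Finset.range T) \ B).card + B.card := by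
    have := Finset.card_le_card_sdiff_add_card (s := Finset.range T) (t := B)
    simpa using this
  have h3 : (B.card : ℝ) ≤
      Nat.log 2 N * ∑ p ∈ primesIn y (Nat.sqrt N), ((T : ℝ) / (p : ℝ) ^ 2 + 1) := by
    have h4 : (B.card : ℝ) ≤ ∑ k ∈ Finset.Icc 1 (Nat.log 2 N),
        ∑ p ∈ primesIn y (Nat.sqrt N), ((T : ℝ) / (p : ℝ) ^ 2 + 1) := by
      have h5 : B.card ≤ ∑ k ∈ Finset.Icc 1 (Nat.log 2 N),
        ∑ p ∈ primesIn y (Nat.sqrt N), (T / p ^ 2 + 1) := by
        refine Finset.card_biUnion_le.trans (Finset.sum_le_sum fun k _ => ?_)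
        refine Finset.card_biUnion_le.trans (Finset.sum_le_sum fun p hp => ?_)
        unfold primesIn at hp
        obtain ⟨hp1, hp2⟩ := Finset.mem_filter.1 hp
        exact hbad k p hp2 (Finset.mem_Ioc.1 hp1).1
      have h6 : (B.card : ℝ) ≤ ((∑ k ∈ Finset.Icc 1 (Nat.log 2 N),
        ∑ p ∈ primesIn y (Nat.sqrt N), (T / p ^ 2 + 1) : ℕ) : ℝ) := by exact_mod_cast h5
      refine h6.trans ?_
      push_cast
      refine Finset.sum_le_sum fun k _ => Finset.sum_le_sum fun p _ => ?_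
      have := @Nat.cast_div_le ℝ _ _ _ T (p ^ 2)
      push_cast at this
      linarith
    refine h4.trans (le_of_eq ?_)
    rw [Finset.sum_const, Nat.card_Icc, nsmul_eq_mul]
    simp
  have h4 : (T : ℝ) ≤ (((Finset.range T) \ B).card : ℝ) + B.card := by exact_mod_cast h2
  have h5 : (((Finset.range T) \ B).card : ℝ) ≤ (((Finset.range (N + 1)).filter Good).card : ℝ) := by exact_mod_cast h1
  linarith

lemma count_lower {e : ℝ} (he : 0 < e) (he2 : e ≤ 1 / 2) : ∃ N₀ : ℕ, ∀ N : ℕ, N₀ ≤ N →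
    (N : ℝ) ^ (1 - e) ≤ ({n : ℕ | n ≤ N ∧ Good n}.ncard : ℝ) := by
  have hη : 0 < e / 4 := by positivity
  obtain ⟨y₀, hy₀, hsum⟩ := sum_primes_le (δ := e / 4 / 8) (by positivity)
  obtain ⟨K₀, hK₀⟩ := exists_nat_ge (((max y₀ 3 : ℕ) + 2 : ℝ) / (e / 4))
  -- asymptotic inequalities
  have hlog : ∀ᶠ x : ℝ in atTop, 4 * (Real.log x / Real.log 2) * Real.sqrt x + 1 ≤
      x ^ (1 - e / 2) := by
    have h1 := (isLittleO_log_rpow_atTop (r := 1 / 8) (by norm_num)).bound
      (c := Real.log 2 / 4) (by have := Real.log_pos one_lt_two; positivity)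
    have h2 : ∀ᶠ x : ℝ in atTop, (2 : ℝ) ≤ x ^ ((1 : ℝ) / 8) :=
      (tendsto_rpow_atTop (by norm_num : (0 : ℝ) < 1 / 8)).eventually_ge_atTop _
    filter_upwards [h1, h2, eventually_ge_atTop 1] with x hx1 hx2 hx3
    have hx0 : (0 : ℝ) < x := by linarith
    have hl : 0 ≤ Real.log x := Real.log_nonneg hx3
    have hl2 : 0 < Real.log 2 := Real.log_pos one_lt_two
    rw [Real.norm_of_nonneg hl, Real.norm_of_nonneg (by positivity)] at hx1
    have h3 : 4 * (Real.log x / Real.log 2) ≤ x ^ ((1 : ℝ) / 8) := by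
      rw [mul_div_assoc', div_le_iff₀ hl2]
      linarith
    have h4 : Real.sqrt x = x ^ ((1 : ℝ) / 2) := Real.sqrt_eq_rpow x
    have h5 : 4 * (Real.log x / Real.log 2) * Real.sqrt x ≤ x ^ ((5 : ℝ) / 8) := by
      rw [h4]
      calc _ ≤ x ^ ((1 : ℝ) / 8) * x ^ ((1 : ℝ) / 2) :=
            mul_le_mul_of_nonneg_right h3 (by positivity)
        _ = x ^ ((5 : ℝ) / 8) := by rw [← Real.rpow_add hx0]; norm_num
    have h6 : x ^ ((5 : ℝ) / 8) + 1 ≤ x ^ ((3 : ℝ) / 4) := by
      have e1 : x ^ ((3 : ℝ) / 4) = x ^ ((1 : ℝ) / 8) * x ^ ((5 : ℝ) / 8) := by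
        rw [← Real.rpow_add hx0]; norm_num
      have h7 : (1 : ℝ) ≤ x ^ ((5 : ℝ) / 8) := Real.one_le_rpow hx3 (by norm_num)
      rw [e1]
      nlinarith
    have h8 : x ^ ((3 : ℝ) / 4) ≤ x ^ (1 - e / 2) :=
      Real.rpow_le_rpow_of_exponent_le hx3 (by linarith)
    linarith
  have hlast : ∀ᶠ x : ℝ in atTop, 2 * x ^ (1 - e) + 1 ≤ x ^ (1 - e / 2) := by
    have h2 : ∀ᶠ x : ℝ in atTop, (3 : ℝ) ≤ x ^ (e / 2) :=
      (tendsto_rpow_atTop (by positivity : (0 : ℝ) < e / 2)).eventually_ge_atTop _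
    filter_upwards [h2, eventually_ge_atTop 1] with x hx2 hx3
    have hx0 : (0 : ℝ) < x := by linarith
    have e1 : x ^ (1 - e / 2) = x ^ (e / 2) * x ^ (1 - e) := by
      rw [← Real.rpow_add hx0]; congr 1; ring
    have h7 : (1 : ℝ) ≤ x ^ (1 - e) := Real.one_le_rpow hx3 (by linarith)
    rw [e1]
    nlinarith
  obtain ⟨x₁, hx₁⟩ := Filter.eventually_atTop.1 (hlog.and hlast)
  refine ⟨max (max (2 ^ K₀) ⌈x₁⌉₊) 1, fun N hN => ?_⟩
  have hN1 : 2 ^ K₀ ≤ N := (le_max_left _ _).trans ((le_max_left _ _).trans hN)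
  have hN2 : x₁ ≤ (N : ℝ) :=
    (Nat.le_ceil x₁).trans (by exact_mod_cast (le_max_right _ _).trans ((le_max_left _ _).trans hN))
  have hN3 : 1 ≤ N := (le_max_right _ _).trans hN
  obtain ⟨hA, hB⟩ := hx₁ N hN2
  have hNr : (0 : ℝ) < N := by exact_mod_cast hN3
  set K := Nat.log 2 N with hK
  have hKK : K₀ ≤ K := Nat.le_log_of_pow_le (by norm_num) hN1
  have hKN : 2 ^ K ≤ N := Nat.pow_log_le_self 2 (by omega)
  set y := ⌊e / 4 * K⌋₊ with hy
  have hKr : ((max y₀ 3 : ℕ) + 2 : ℝ) ≤ e / 4 * K := by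
    have h1 : (K₀ : ℝ) ≤ K := by exact_mod_cast hKK
    have h2 := hK₀.trans h1
    rw [div_le_iff₀ hη] at h2
    linarith
  have hyle : (y : ℝ) ≤ e / 4 * K := Nat.floor_le (by positivity)
  have hylt : e / 4 * K < y + 1 := Nat.lt_floor_add_one _
  have hmax : (3 : ℝ) ≤ (max y₀ 3 : ℕ) := by exact_mod_cast le_max_right y₀ 3
  have hyy : max y₀ 3 ≤ y := by
    have h1 : ((max y₀ 3 : ℕ) : ℝ) < (y : ℝ) := by linarith
    exact_mod_cast h1.le
  have hy3 : 3 ≤ y := (le_max_right _ _).trans hyy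
  have hyhalf : e / 4 * K / 2 ≤ y := by linarith
  have hprim_even : 2 ∣ primorial y := (Nat.prime_two.dvd_primorial_iff).2 (by omega)
  obtain ⟨P, hP⟩ := hprim_even
  set T := N / primorial y with hT
  have hTN : 2 * P * T ≤ N := by
    rw [← hP, hT]
    exact Nat.mul_div_le N _
  have hcount := main_count y N T P hy3 hP.symm hTN
  -- lower bound for `T`
  have hprimle : (primorial y : ℝ) ≤ (N : ℝ) ^ (e / 2) := by
    have h1 : (primorial y : ℝ) ≤ (4 : ℝ) ^ y := by exact_mod_cast primorial_le_four_pow y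
    have h2 : (4 : ℝ) ^ y = (4 : ℝ) ^ (y : ℝ) := (Real.rpow_natCast _ _).symm
    have h3 : (4 : ℝ) ^ (y : ℝ) ≤ (4 : ℝ) ^ (e / 4 * K) :=
      Real.rpow_le_rpow_of_exponent_le (by norm_num) hyle
    have h4 : (4 : ℝ) ^ (e / 4 * K) = ((2 : ℝ) ^ K) ^ (e / 2) := by
      rw [← Real.rpow_natCast, ← Real.rpow_mul (by norm_num),
        show (4 : ℝ) = 2 ^ (2 : ℝ) by norm_num, ← Real.rpow_mul (by norm_num)]
      congr 1
      ring
    have h5 : ((2 : ℝ) ^ K) ^ (e / 2) ≤ (N : ℝ) ^ (e / 2) := by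
      apply Real.rpow_le_rpow (by positivity) (by exact_mod_cast hKN) (by positivity)
    linarith
  have hTlow : (N : ℝ) ^ (1 - e / 2) - 1 ≤ T := by
    have h1 : (N : ℝ) / primorial y < T + 1 := by
      rw [hT, div_lt_iff₀ (by exact_mod_cast primorial_pos y)]
      have := Nat.lt_mul_div_succ N (primorial_pos y)
      have h2 : (N : ℝ) < primorial y * ((N / primorial y : ℕ) + 1) := by exact_mod_cast this
      linarith
    have h2 : (N : ℝ) ^ (1 - e / 2) ≤ (N : ℝ) / primorial y := by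
      rw [le_div_iff₀ (by exact_mod_cast primorial_pos y)]
      calc (N : ℝ) ^ (1 - e / 2) * primorial y ≤ (N : ℝ) ^ (1 - e / 2) * (N : ℝ) ^ (e / 2) :=
            mul_le_mul_of_nonneg_left hprimle (by positivity)
        _ = N := by
            rw [← Real.rpow_add hNr]
            simp
    linarith
  -- the sum over the primes
  have hS := hsum y ((le_max_left _ _).trans hyy) (Nat.sqrt N)
  have hKpos : (0 : ℝ) < K := by
    by_contra hcon
    push Not at hcon
    nlinarith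
  have hypos : (0 : ℝ) < y := by
    have : (3 : ℝ) ≤ y := by exact_mod_cast hy3
    linarith
  have hcard : ((primesIn y (Nat.sqrt N)).card : ℝ) ≤ Real.sqrt N := by
    have h1 : (primesIn y (Nat.sqrt N)).card ≤ Nat.sqrt N := by
      unfold primesIn
      refine (Finset.card_filter_le _ _).trans ?_
      simp
    have h2 : ((primesIn y (Nat.sqrt N)).card : ℝ) ≤ (Nat.sqrt N : ℝ) := by exact_mod_cast h1
    exact h2.trans Real.nat_sqrt_le_real_sqrt
  have hsplit : ∑ p ∈ primesIn y (Nat.sqrt N), ((T : ℝ) / (p : ℝ) ^ 2 + 1) =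
      (T : ℝ) * ∑ p ∈ primesIn y (Nat.sqrt N), 1 / (p : ℝ) ^ 2 +
        ((primesIn y (Nat.sqrt N)).card : ℝ) := by
    rw [Finset.sum_add_distrib, Finset.mul_sum]
    simp [div_eq_mul_inv]
  have hT0 : (0 : ℝ) ≤ T := Nat.cast_nonneg _
  have hpart1 : (K : ℝ) * (T * ∑ p ∈ primesIn y (Nat.sqrt N), 1 / (p : ℝ) ^ 2) ≤ T / 4 := by
    have h1 : (K : ℝ) * (T * ∑ p ∈ primesIn y (Nat.sqrt N), 1 / (p : ℝ) ^ 2) ≤
        K * (T * (e / 4 / 8 / y)) := by gcongr
    have h2 : (K : ℝ) * (e / 4 / 8 / y) ≤ 1 / 4 := by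
      rw [mul_div_assoc', div_le_iff₀ hypos]
      linarith
    calc _ ≤ K * (T * (e / 4 / 8 / y)) := h1
      _ = T * (K * (e / 4 / 8 / y)) := by ring
      _ ≤ T * (1 / 4) := mul_le_mul_of_nonneg_left h2 hT0
      _ = T / 4 := by ring
  have hKlog : (K : ℝ) ≤ Real.log N / Real.log 2 := by
    rw [le_div_iff₀ (Real.log_pos one_lt_two), ← Real.log_pow]
    exact Real.log_le_log (by positivity) (by exact_mod_cast hKN)
  have hpart2 : (K : ℝ) * (primesIn y (Nat.sqrt N)).card ≤ T / 4 := by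
    have h1 : (K : ℝ) * (primesIn y (Nat.sqrt N)).card ≤
        Real.log N / Real.log 2 * Real.sqrt N := by
      apply mul_le_mul hKlog hcard (Nat.cast_nonneg _)
      exact hKpos.le.trans hKlog
    linarith
  rw [hsplit, mul_add] at hcount
  have h9 : (T : ℝ) / 2 ≤ ({n : ℕ | n ≤ N ∧ Good n}.ncard : ℝ) := by linarith
  linarith

/-- **Main theorem.** There are infinitely many integers `n ≥ 3` such that `n - 2 ^ k` is squarefree for
every `k ≥ 1` with `2 ^ k < n`; moreover, for every `ε > 0` and all large `N` there are at least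
`N ^ (1 - ε)` such integers `n ≤ N`. -/
theorem result : {n : ℕ | Good n}.Infinite ∧ ∀ ε : ℝ, 0 < ε → ∃ N₀ : ℕ, ∀ N : ℕ, N₀ ≤ N →
    (N : ℝ) ^ (1 - ε) ≤ ({n : ℕ | n ≤ N ∧ Good n}.ncard : ℝ) := by
  have main : ∀ ε : ℝ, 0 < ε → ∃ N₀ : ℕ, ∀ N : ℕ, N₀ ≤ N →
    (N : ℝ) ^ (1 - ε) ≤ ({n : ℕ | n ≤ N ∧ Good n}.ncard : ℝ) := by
    intro ε hε
    obtain ⟨N₀, h⟩ := count_lower (e := min ε (1 / 2)) (by positivity) (min_le_right _ _)
    refine ⟨max N₀ 1, fun N hN => ?_⟩
    refine le_trans ?_ (h N ((le_max_left _ _).trans hN))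
    apply Real.rpow_le_rpow_of_exponent_le
    · exact_mod_cast (le_max_right _ _).trans hN
    · linarith [min_le_left ε (1 / 2)]
  refine ⟨?_, main⟩
  intro hfin
  obtain ⟨N₀, h⟩ := main (1 / 2) (by norm_num)
  set C := {n : ℕ | Good n}.ncard with hC
  have h1 := h (max N₀ ((C + 1) ^ 2)) (le_max_left _ _)
  have h2 : {n : ℕ | n ≤ max N₀ ((C + 1) ^ 2) ∧ Good n}.ncard ≤ C :=
    Set.ncard_le_ncard (fun n hn => hn.2) hfin
  have h3 : ((C + 1 : ℕ) : ℝ) ≤ ((max N₀ ((C + 1) ^ 2) : ℕ) : ℝ) ^ ((1 : ℝ) - 1 / 2) := by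
    rw [show (1 : ℝ) - 1 / 2 = 1 / 2 by norm_num, ← Real.sqrt_eq_rpow]
    apply Real.le_sqrt_of_sq_le
    exact_mod_cast le_max_right N₀ ((C + 1) ^ 2)
  have h4 : ((C + 1 : ℕ) : ℝ) ≤ (C : ℝ) :=
    h3.trans (h1.trans (by exact_mod_cast h2))
  push_cast at h4
  linarith

end Pool.Agent.Results.MP_fcd74d_nt.SquarefreeDifferences
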